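import Pool.Agent.W761.CB.Stms

/-!
# CB-BLK: blocks
-/

set_option autoImplicit false

open MeasureTheory
open scoped ENNReal

namespace Pool.Agent.W374.CB2.Blk

open Pool.Agent.W761.CB

/-- one-dimensional block -/
def arc (L b : ℝ) (a : ℕ) : Set (AddCircle L) :=
  {y | ∃ t : ℝ, (a : ℝ) * b ≤ t ∧ t < ((a : ℝ) + 1) * b ∧ y = (t : AddCircle L)}

lemma blk_eq (n : ℕ) (L b : ℝ) (i : Fin n → ℕ) :
    blk n L b i = Set.pi Set.univ fun c => arc L b (i c) := by
  ext x
  simp only [blk, arc, Set.mem_univ_pi]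
  rfl

section
variable (L b : ℝ) [hL : Fact (0 < L)] (q : ℕ)

lemma b_pos {L b : ℝ} (hL : 0 < L) {q : ℕ} (hq : 1 ≤ q) (h : L = q * b) : 0 < b ∧ b ≤ L := by
  have hq' : (1 : ℝ) ≤ q := by exact_mod_cast hq
  have hb : 0 < b := by
    by_contra hb
    push Not at hb
    nlinarith
  exact ⟨hb, by nlinarith⟩

lemma arc_eq (hb : 0 < b) (hbL : b ≤ L) (a : ℕ) :
    arc L b a = {y | ((AddCircle.measurableEquivIco L ((a : ℝ) * b) y : _) : ℝ) <
      ((a : ℝ) + 1) * b} := by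
  ext y
  constructor
  · rintro ⟨t, h1, h2, h3⟩
    have hm : t ∈ Set.Ico ((a : ℝ) * b) ((a : ℝ) * b + L) := ⟨h1, by linarith⟩
    change ((AddCircle.equivIco L ((a : ℝ) * b) y : _) : ℝ) < _
    rw [h3, AddCircle.equivIco_coe_eq hm]
    exact h2
  · intro h
    change ((AddCircle.equivIco L ((a : ℝ) * b) y : _) : ℝ) < _ at h
    refine ⟨_, (AddCircle.equivIco L ((a : ℝ) * b) y).2.1, h, ?_⟩
    exact AddCircle.coe_equivIco.symm

lemma arc_meas (hb : 0 < b) (hbL : b ≤ L) (a : ℕ) : MeasurableSet (arc L b a) := by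
  rw [arc_eq L b hb hbL a]
  exact measurableSet_lt
    (measurable_subtype_coe.comp (AddCircle.measurableEquivIco L ((a : ℝ) * b)).measurable)
    measurable_const

lemma arc_vol (hb : 0 < b) (hbL : b ≤ L) (a : ℕ) :
    volume (arc L b a) ≤ ENNReal.ofReal b := by
  rw [AddCircle.add_projection_respects_measure L ((a : ℝ) * b) (arc_meas L b hb hbL a)]
  have hsub : (QuotientAddGroup.mk ⁻¹' (arc L b a) ∩
      Set.Ioc ((a : ℝ) * b) ((a : ℝ) * b + L) : Set ℝ) ⊆
      Set.Ico ((a : ℝ) * b) (((a : ℝ) + 1) * b) ∪ {(a : ℝ) * b + L} := by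
    rintro t ⟨h1, h2⟩
    by_cases h : t = (a : ℝ) * b + L
    · right; exact h
    · left
      obtain ⟨t', h3, h4, h5⟩ := h1
      have hm : t ∈ Set.Ico ((a : ℝ) * b) ((a : ℝ) * b + L) :=
        ⟨h2.1.le, lt_of_le_of_ne h2.2 h⟩
      have hm' : t' ∈ Set.Ico ((a : ℝ) * b) ((a : ℝ) * b + L) := ⟨h3, by linarith⟩
      have := (AddCircle.coe_eq_coe_iff_of_mem_Ico hm hm').1 h5
      rw [this]
      exact ⟨h3, h4⟩
  refine (measure_mono hsub).trans ((measure_union_le _ _).trans ?_)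
  rw [Real.volume_Ico, Real.volume_singleton, add_zero]
  apply ENNReal.ofReal_le_ofReal
  linarith

lemma arc_exu (hq : 1 ≤ q) (h : L = q * b) (y : AddCircle L) :
    ∃! a : Fin q, y ∈ arc L b (a : ℕ) := by
  obtain ⟨hb, hbL⟩ := b_pos hL.out hq h
  obtain ⟨t, ht⟩ : ∃ t : ℝ, t ∈ Set.Ico (0 : ℝ) (0 + L) ∧ (t : AddCircle L) = y :=
    ⟨AddCircle.equivIco L 0 y, (AddCircle.equivIco L 0 y).2, AddCircle.coe_equivIco⟩
  obtain ⟨⟨h0, h1⟩, h2⟩ := ht
  rw [zero_add] at h1
  have hf0 : 0 ≤ t / b := by positivity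
  have hfl : ⌊t / b⌋₊ < q := by
    rw [Nat.floor_lt hf0, div_lt_iff₀ hb, ← h]
    exact h1
  refine ⟨⟨⌊t / b⌋₊, hfl⟩, ⟨t, ?_, ?_, h2.symm⟩, ?_⟩
  · have := Nat.floor_le hf0
    rwa [le_div_iff₀ hb] at this
  · have := Nat.lt_floor_add_one (t / b)
    rwa [div_lt_iff₀ hb] at this
  · rintro a ⟨t', h3, h4, h5⟩
    have haq : ((a : ℕ) : ℝ) + 1 ≤ q := by exact_mod_cast a.2
    have ha0 : (0 : ℝ) ≤ (a : ℕ) := by positivity
    have hm : t ∈ Set.Ico (0 : ℝ) (0 + L) := ⟨h0, by linarith⟩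
    have hm' : t' ∈ Set.Ico (0 : ℝ) (0 + L) := by
      refine ⟨by nlinarith, ?_⟩
      rw [zero_add]
      nlinarith
    have hh : t = t' := (AddCircle.coe_eq_coe_iff_of_mem_Ico hm hm').1 (h2.trans h5)
    apply Fin.ext
    change (a : ℕ) = ⌊t / b⌋₊
    symm
    rw [Nat.floor_eq_iff hf0, le_div_iff₀ hb, div_lt_iff₀ hb, hh]
    exact ⟨h3, h4⟩

lemma arc_cnt (hq : 1 ≤ q) (h : L = q * b) (x : AddCircle L) (k : ℕ) (A : Finset (Fin q))
    (hA : ∀ a ∈ A, ∃ y ∈ arc L b (a : ℕ), ∃ z : ℝ, |z| ≤ k * b ∧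
      y = x + (z : AddCircle L)) : A.card ≤ 2 * k + 2 := by
  obtain ⟨hb, hbL⟩ := b_pos hL.out hq h
  obtain ⟨t, rfl⟩ := QuotientAddGroup.mk_surjective x
  have hq0 : (0 : ℤ) < q := by exact_mod_cast (by omega : 0 < q)
  set f : ℕ → Fin q := fun j => ⟨((⌊t / b⌋ - k + j) % (q : ℤ)).toNat, by
    have h1 := Int.emod_lt_of_pos (⌊t / b⌋ - k + j) hq0
    have h2 := Int.emod_nonneg (⌊t / b⌋ - k + j) hq0.ne'
    omega⟩ with hf
  have hsub : A ⊆ (Finset.range (2 * k + 2)).image f := by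
    intro a ha
    obtain ⟨y, ⟨s, h1, h2, h3⟩, z, hz, h4⟩ := hA a ha
    have h5 : (s : AddCircle L) = ((t + z : ℝ) : AddCircle L) := by
      rw [← h3, h4]; rfl
    have h6 : ((s - (t + z) : ℝ) : AddCircle L) = 0 := by
      rw [AddCircle.coe_sub, h5, sub_self]
    obtain ⟨m, hm⟩ := (AddCircle.coe_eq_zero_iff L).1 h6
    rw [zsmul_eq_mul] at hm
    have h7 : (t + z) / b = s / b - ((m * q : ℤ) : ℝ) := by
      push_cast
      rw [eq_sub_iff_add_eq, div_add' _ _ _ hb.ne']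
      congr 1
      rw [h] at hm
      linarith
    have h8 : ⌊s / b⌋ = ((a : ℕ) : ℤ) := by
      rw [Int.floor_eq_iff]
      push_cast
      rw [le_div_iff₀ hb, div_lt_iff₀ hb]
      exact ⟨h1, h2⟩
    have h9 : ⌊(t + z) / b⌋ = ((a : ℕ) : ℤ) - m * q := by
      rw [h7, Int.floor_sub_intCast, h8]
    rw [abs_le] at hz
    have h10 : ⌊t / b⌋ - k ≤ ⌊(t + z) / b⌋ := by
      rw [← Int.floor_sub_natCast]
      apply Int.floor_le_floor
      rw [sub_le_iff_le_add, div_add' _ _ _ hb.ne']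
      apply div_le_div_of_nonneg_right _ hb.le
      linarith
    have h11 : ⌊(t + z) / b⌋ ≤ ⌊t / b⌋ + k := by
      rw [← Int.floor_add_natCast]
      apply Int.floor_le_floor
      rw [div_add' _ _ _ hb.ne']
      apply div_le_div_of_nonneg_right _ hb.le
      linarith
    rw [Finset.mem_image]
    refine ⟨(⌊(t + z) / b⌋ - ⌊t / b⌋ + k).toNat, ?_, ?_⟩
    · rw [Finset.mem_range]
      omega
    · apply Fin.ext
      change ((⌊t / b⌋ - k + ((⌊(t + z) / b⌋ - ⌊t / b⌋ + k).toNat : ℕ)) % (q : ℤ)).toNat = (a : ℕ)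
      rw [Int.toNat_of_nonneg (by omega)]
      have e1 : ⌊t / b⌋ - k + (⌊(t + z) / b⌋ - ⌊t / b⌋ + k) = ((a : ℕ) : ℤ) - m * q := by
        rw [← h9]; ring
      rw [e1, Int.sub_mul_emod_self_right,
        Int.emod_eq_of_lt (by positivity) (by exact_mod_cast a.2)]
      simp
  refine (Finset.card_le_card hsub).trans ?_
  refine Finset.card_image_le.trans ?_
  rw [Finset.card_range]

end

open Classical in
theorem blk (_ : S_TF) : S_BLK := by
  intro n L b hL q hq h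
  obtain ⟨hb, hbL⟩ := b_pos hL.out hq h
  refine ⟨?_, ?_, ?_, ?_, ?_⟩
  · intro i
    rw [blk_eq]
    exact MeasurableSet.univ_pi fun c => arc_meas L b hb hbL (i c)
  · intro x
    have h1 := fun c => arc_exu L b q hq h (x c)
    choose i hi hu using h1
    refine ⟨i, ?_, ?_⟩
    · change x ∈ Pool.Agent.W761.CB.blk n L b fun c => (i c : ℕ)
      rw [blk_eq]
      exact fun c _ => hi c
    · intro j hj
      change x ∈ Pool.Agent.W761.CB.blk n L b fun c => (j c : ℕ) at hj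
      rw [blk_eq] at hj
      funext c
      exact hu c (j c) (hj c (Set.mem_univ c))
  · intro i x y hx hy
    choose t h1 h2 h3 using hx
    choose t' h1' h2' h3' using hy
    refine ⟨fun c => t' c - t c, ?_, ?_⟩
    · intro c
      have a1 := h1 c
      have a2 := h2 c
      have a3 := h1' c
      have a4 := h2' c
      rw [abs_lt]
      constructor <;> linarith
    · funext c
      rw [Pi.add_apply, h3 c, h3' c]
      change ((t' c : ℝ) : AddCircle L) = (t c : AddCircle L) + ((t' c - t c : ℝ) : AddCircle L)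
      rw [← AddCircle.coe_add]
      congr 1
      ring
  · intro i
    rw [blk_eq, volume_pi_pi]
    calc ∏ c, volume (arc L b (i c)) ≤ ∏ _c : Fin n, ENNReal.ofReal b :=
          Finset.prod_le_prod' fun c _ => arc_vol L b hb hbL (i c)
      _ = ENNReal.ofReal (b ^ n) := by
          rw [Finset.prod_const, Finset.card_univ, Fintype.card_fin, ENNReal.ofReal_pow hb.le]
  · intro x k
    set A : Fin n → Finset (Fin q) := fun c => Finset.univ.filter fun a : Fin q =>
      ∃ y ∈ arc L b (a : ℕ), ∃ z : ℝ, |z| ≤ k * b ∧ y = x c + (z : AddCircle L) with hA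
    have h1 : ∀ c, (A c).card ≤ 2 * k + 2 := by
      intro c
      apply arc_cnt L b q hq h (x c) k
      intro a ha
      rw [hA] at ha
      exact (Finset.mem_filter.1 ha).2
    have h2 : (Finset.univ.filter fun i : Fin n → Fin q =>
        ∃ y ∈ Pool.Agent.W761.CB.blk n L b (fun c => (i c : ℕ)), ∃ z : Fin n → ℝ,
          (∀ c, |z c| ≤ k * b) ∧ y = x + pr L z) ⊆ Fintype.piFinset A := by
      intro i hi
      obtain ⟨y, hy, z, hz, hxy⟩ := (Finset.mem_filter.1 hi).2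
      rw [Fintype.mem_piFinset]
      intro c
      rw [hA]
      refine Finset.mem_filter.2 ⟨Finset.mem_univ _, y c, hy c, z c, hz c, ?_⟩
      rw [hxy]
      rfl
    have h3 := Finset.card_le_card h2
    rw [Fintype.card_piFinset] at h3
    have h4 : ∏ c, (A c).card ≤ (2 * k + 2) ^ n := by
      calc ∏ c, (A c).card ≤ ∏ _c : Fin n, (2 * k + 2) := Finset.prod_le_prod' fun c _ => h1 c
        _ = _ := by rw [Finset.prod_const, Finset.card_univ, Fintype.card_fin]
    exact_mod_cast h3.trans h4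

end Pool.Agent.W374.CB2.Blk
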