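import Pool.Agent.W417.CB.Ebc
import Pool.Agent.W366.CB.Lam
import Pool.Agent.W975.CB.Ms
import Pool.Agent.W761.CB.Stms

/-!
# CB-COH: coherence of the vectors of small kinetic energy
-/

set_option autoImplicit false

open MeasureTheory
open scoped ENNReal

namespace Pool.Agent.W374.CB2.Coh

open Pool.Agent.W761.CB

lemma ensq (w : ℂ) : ‖w‖ₑ ^ 2 = ENNReal.ofReal (‖w‖ ^ 2) := by
  rw [← ofReal_norm, ENNReal.ofReal_pow (norm_nonneg _)]

lemma nsq (a b : ℂ) : ‖a - b‖ ^ 2 = ‖a‖ ^ 2 + ‖b‖ ^ 2 - 2 * (a * (starRingEnd ℂ) b).re := by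
  rw [← Complex.normSq_eq_norm_sq, ← Complex.normSq_eq_norm_sq, ← Complex.normSq_eq_norm_sq,
    Complex.normSq_sub]

section
variable {X : Type} [MeasurableSpace X] (ν : Measure X) [IsFiniteMeasure ν]

lemma bint {E : Type} [NormedAddCommGroup E] [MeasurableSpace E] [BorelSpace E]
    [SecondCountableTopology E] {f : X → E} (hf : Measurable f) {C : ℝ}
    (hC : ∀ x, ‖f x‖ ≤ C) : Integrable f ν :=
  Integrable.of_bound hf.aestronglyMeasurable C (Filter.Eventually.of_forall hC)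

/-- the square expanded -/
lemma expand (u : X → ℝ) (hu : Measurable u) (hu0 : ∀ x, 0 ≤ u x) {B : ℝ} (hub : ∀ x, u x ≤ B)
    (f : X → ℂ) (hf : Measurable f) {D : ℝ} (hfb : ∀ x, ‖f x‖ ≤ D) :
    ENNReal.ofReal (∫ x, u x ∂ν) * ∫⁻ x, ENNReal.ofReal (u x) * ‖f x‖ₑ ^ 2 ∂ν =
      ‖∫ x, (u x : ℂ) * f x ∂ν‖ₑ ^ 2 +
        2⁻¹ * ∫⁻ x, ∫⁻ y, ENNReal.ofReal (u x * u y) * ‖f x - f y‖ₑ ^ 2 ∂ν ∂ν := by
  rcases isEmpty_or_nonempty X with hX | hX
  · rw [Measure.eq_zero_of_isEmpty ν]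
    simp
  obtain ⟨x0⟩ := hX
  have hB0 : 0 ≤ B := (hu0 x0).trans (hub x0)
  have hD0 : 0 ≤ D := (norm_nonneg _).trans (hfb x0)
  set M : ℝ := ∫ x, u x ∂ν with hM
  set A : ℝ := ∫ x, u x * ‖f x‖ ^ 2 ∂ν with hA
  set Z : ℂ := ∫ x, (u x : ℂ) * f x ∂ν with hZ
  have hM0 : 0 ≤ M := integral_nonneg hu0
  have iu : Integrable u ν := bint ν hu (C := B) fun x => by
    rw [Real.norm_eq_abs, abs_of_nonneg (hu0 x)]; exact hub x
  have iuf2 : Integrable (fun x => u x * ‖f x‖ ^ 2) ν := bint ν (by fun_prop) (C := B * D ^ 2)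
    fun x => by
      rw [Real.norm_eq_abs, abs_of_nonneg (by have := hu0 x; positivity)]
      have h1 := hu0 x
      have h2 := hub x
      have h3 : ‖f x‖ ^ 2 ≤ D ^ 2 := by
        have := hfb x
        have := norm_nonneg (f x)
        nlinarith
      have h4 : 0 ≤ ‖f x‖ ^ 2 := by positivity
      nlinarith
  have iuf : Integrable (fun x => (u x : ℂ) * f x) ν := bint ν (by fun_prop) (C := B * D)
    fun x => by
      rw [norm_mul, Complex.norm_real, Real.norm_eq_abs, abs_of_nonneg (hu0 x)]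
      exact mul_le_mul (hub x) (hfb x) (norm_nonneg _) hB0
  -- inner integral
  have hin : ∀ x, ∫ y, u x * u y * ‖f x - f y‖ ^ 2 ∂ν =
      u x * ‖f x‖ ^ 2 * M + u x * A - 2 * (((u x : ℂ) * f x) * (starRingEnd ℂ) Z).re := by
    intro x
    have e1 : ∀ y, u x * u y * ‖f x - f y‖ ^ 2 = (u x * ‖f x‖ ^ 2) * u y +
        u x * (u y * ‖f y‖ ^ 2) -
        2 * (((u x : ℂ) * f x) * (starRingEnd ℂ) ((u y : ℂ) * f y)).re := by
      intro y
      rw [nsq]
      have : (((u x : ℂ) * f x) * (starRingEnd ℂ) ((u y : ℂ) * f y)).re =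
          u x * u y * (f x * (starRingEnd ℂ) (f y)).re := by
        rw [map_mul, Complex.conj_ofReal]
        rw [show (u x : ℂ) * f x * ((u y : ℂ) * (starRingEnd ℂ) (f y)) =
          ((u x * u y : ℝ) : ℂ) * (f x * (starRingEnd ℂ) (f y)) by push_cast; ring,
          Complex.re_ofReal_mul]
      rw [this]
      ring
    have i3 : Integrable (fun y => ((u x : ℂ) * f x) * (starRingEnd ℂ) ((u y : ℂ) * f y)) ν := by
      apply Integrable.const_mul
      exact (Complex.conjLIE.integrable_comp_iff (φ := fun y => (u y : ℂ) * f y)).2 iuf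
    simp_rw [e1]
    rw [integral_sub, integral_add, integral_const_mul, integral_const_mul, integral_const_mul]
    · have e2 : ∫ y, (((u x : ℂ) * f x) * (starRingEnd ℂ) ((u y : ℂ) * f y)).re ∂ν =
          (((u x : ℂ) * f x) * (starRingEnd ℂ) Z).re := by
        have := integral_re (𝕜 := ℂ) i3
        simp only [RCLike.re_to_complex] at this
        rw [this, integral_const_mul, hZ, ← integral_conj]
      rw [e2]
    · exact iu.const_mul _
    · exact iuf2.const_mul _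
    · exact (iu.const_mul _).add (iuf2.const_mul _)
    · exact (i3.re).const_mul 2
  -- outer integral
  have hout : ∫ x, (∫ y, u x * u y * ‖f x - f y‖ ^ 2 ∂ν) ∂ν = 2 * (M * A) - 2 * ‖Z‖ ^ 2 := by
    simp_rw [hin]
    have i4 : Integrable (fun x => ((u x : ℂ) * f x) * (starRingEnd ℂ) Z) ν := iuf.mul_const _
    rw [integral_sub, integral_add, integral_mul_const, integral_mul_const, integral_const_mul]
    · have e2 : ∫ x, (((u x : ℂ) * f x) * (starRingEnd ℂ) Z).re ∂ν = ‖Z‖ ^ 2 := by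
        have := integral_re (𝕜 := ℂ) i4
        simp only [RCLike.re_to_complex] at this
        rw [this, integral_mul_const, ← hZ, Complex.mul_conj, Complex.normSq_eq_norm_sq,
          Complex.ofReal_re]
      rw [e2, ← hA, ← hM]
      ring
    · exact iuf2.mul_const _
    · exact iu.mul_const _
    · exact (iuf2.mul_const _).add (iu.mul_const _)
    · exact (i4.re).const_mul 2
  have hnn : ∀ x y, 0 ≤ u x * u y * ‖f x - f y‖ ^ 2 := by
    intro x y
    have h1 := hu0 x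
    have h2 := hu0 y
    positivity
  have hbd : ∀ x y, u x * u y * ‖f x - f y‖ ^ 2 ≤ B * B * (2 * D) ^ 2 := by
    intro x y
    have h3 : ‖f x - f y‖ ≤ 2 * D := (norm_sub_le _ _).trans (by linarith [hfb x, hfb y])
    have h4 : ‖f x - f y‖ ^ 2 ≤ (2 * D) ^ 2 := pow_le_pow_left₀ (norm_nonneg _) h3 2
    have h5 : u x * u y ≤ B * B := mul_le_mul (hub x) (hub y) (hu0 y) hB0
    exact mul_le_mul h5 h4 (by positivity) (by positivity)
  have hI : ∀ x, ∫⁻ y, ENNReal.ofReal (u x * u y) * ‖f x - f y‖ₑ ^ 2 ∂ν =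
      ENNReal.ofReal (∫ y, u x * u y * ‖f x - f y‖ ^ 2 ∂ν) := by
    intro x
    rw [ofReal_integral_eq_lintegral_ofReal]
    · apply lintegral_congr
      intro y
      rw [ensq, ← ENNReal.ofReal_mul (by have h1 := hu0 x; have h2 := hu0 y; positivity)]
    · apply bint ν (by fun_prop) (C := B * B * (2 * D) ^ 2)
      intro y
      rw [Real.norm_eq_abs, abs_of_nonneg (hnn x y)]
      exact hbd x y
    · exact Filter.Eventually.of_forall (hnn x)
  have hg0 : ∀ x, 0 ≤ ∫ y, u x * u y * ‖f x - f y‖ ^ 2 ∂ν := fun x => integral_nonneg (hnn x)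
  have hgm : Measurable fun x => ∫ y, u x * u y * ‖f x - f y‖ ^ 2 ∂ν := by
    simp_rw [hin]
    have hc : Measurable fun x => (((u x : ℂ) * f x) * (starRingEnd ℂ) Z).re :=
      Complex.measurable_re.comp (by fun_prop)
    fun_prop
  have hJ : ∫⁻ x, ∫⁻ y, ENNReal.ofReal (u x * u y) * ‖f x - f y‖ₑ ^ 2 ∂ν ∂ν =
      ENNReal.ofReal (2 * (M * A) - 2 * ‖Z‖ ^ 2) := by
    simp_rw [hI]
    rw [← hout, ofReal_integral_eq_lintegral_ofReal]
    · apply bint ν hgm (C := B * B * (2 * D) ^ 2 * (ν Set.univ).toReal)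
      intro x
      rw [Real.norm_eq_abs, abs_of_nonneg (hg0 x)]
      calc ∫ y, u x * u y * ‖f x - f y‖ ^ 2 ∂ν ≤ ∫ _y, B * B * (2 * D) ^ 2 ∂ν := by
            apply integral_mono_of_nonneg (Filter.Eventually.of_forall (hnn x))
              (integrable_const _) (Filter.Eventually.of_forall (hbd x))
        _ = _ := by
            rw [integral_const, smul_eq_mul, Measure.real, mul_comm]
    · exact Filter.Eventually.of_forall hg0
  have hpos : 0 ≤ 2 * (M * A) - 2 * ‖Z‖ ^ 2 := by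
    rw [← hout]
    exact integral_nonneg hg0
  have hL : ∫⁻ x, ENNReal.ofReal (u x) * ‖f x‖ₑ ^ 2 ∂ν = ENNReal.ofReal A := by
    rw [hA, ofReal_integral_eq_lintegral_ofReal iuf2 (Filter.Eventually.of_forall fun x => by
      have := hu0 x
      positivity)]
    apply lintegral_congr
    intro x
    rw [ensq, ← ENNReal.ofReal_mul (hu0 x)]
  rw [hJ, hL, ensq, ← ENNReal.ofReal_mul hM0]
  have h2 : (2⁻¹ : ℝ≥0∞) = ENNReal.ofReal (2⁻¹) := by
    rw [ENNReal.ofReal_inv_of_pos (by norm_num)]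
    norm_num
  rw [h2, ← ENNReal.ofReal_mul (by norm_num), ← ENNReal.ofReal_add (by positivity) (by positivity)]
  congr 1
  ring

lemma one (hE : S_EBC) (hL : S_LAM) (u : X → ℝ) (hu : Measurable u) (hu0 : ∀ x, 0 ≤ u x)
    {B : ℝ} (hub : ∀ x, u x ≤ B) (F : Multiset X → ℂ) (hF : EB F) :
    ENNReal.ofReal (∫ x, u x ∂ν) * ∫⁻ x, ENNReal.ofReal (u x) * nE ν (an x F) ∂ν =
      nE ν (ag ν u F) + 2⁻¹ * ∫⁻ x, ∫⁻ y, ENNReal.ofReal (u x * u y) * dE ν F x y ∂ν ∂ν := by
  have hfin : IsFiniteMeasure (lam ν) := (hL X ν).2.1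
  obtain ⟨-, -, -, hag, m1, -, -, ⟨C, c, hC, hc, hb⟩, -⟩ := hE X ν F F hF hF
  have hag' : EB (ag ν u F) := hag u hu ⟨B, fun x => by rw [abs_of_nonneg (hu0 x)]; exact hub x⟩
  have hm1 : Measurable fun p : Cf X × X => F (p.2 ::ₘ ms p.1) := m1.comp measurable_swap
  have k1 : Measurable fun p : Cf X × X => ENNReal.ofReal (u p.2) * ‖F (p.2 ::ₘ ms p.1)‖ₑ ^ 2 :=
    ((hu.comp measurable_snd).ennreal_ofReal).mul (hm1.enorm.pow_const 2)
  have k2 : Measurable fun p : (Cf X × X) × X => ENNReal.ofReal (u p.1.2 * u p.2) *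
      ‖F (p.1.2 ::ₘ ms p.1.1) - F (p.2 ::ₘ ms p.1.1)‖ₑ ^ 2 := by
    have a1 : Measurable fun p : (Cf X × X) × X => F (p.1.2 ::ₘ ms p.1.1) :=
      hm1.comp measurable_fst
    have a2 : Measurable fun p : (Cf X × X) × X => F (p.2 ::ₘ ms p.1.1) :=
      hm1.comp ((measurable_fst.comp measurable_fst).prodMk measurable_snd)
    exact (((hu.comp (measurable_snd.comp measurable_fst)).mul
      (hu.comp measurable_snd)).ennreal_ofReal).mul ((a1.sub a2).enorm.pow_const 2)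
  have hm1' : ∀ γ : Cf X, Measurable fun x => F (x ::ₘ ms γ) := fun γ =>
    hm1.comp measurable_prodMk_left
  -- left side
  have l1 : ∫⁻ x, ENNReal.ofReal (u x) * nE ν (an x F) ∂ν =
      ∫⁻ γ, ∫⁻ x, ENNReal.ofReal (u x) * ‖F (x ::ₘ ms γ)‖ₑ ^ 2 ∂ν ∂(lam ν) := by
    rw [lintegral_lintegral_swap k1.aemeasurable]
    apply lintegral_congr
    intro x
    unfold nE an
    rw [lintegral_const_mul]
    exact ((hm1.comp measurable_prodMk_right).enorm.pow_const 2)
  have l2 : ∫⁻ γ, ∫⁻ x, ∫⁻ y, ENNReal.ofReal (u x * u y) *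
      ‖F (x ::ₘ ms γ) - F (y ::ₘ ms γ)‖ₑ ^ 2 ∂ν ∂ν ∂(lam ν) =
      ∫⁻ x, ∫⁻ y, ENNReal.ofReal (u x * u y) * dE ν F x y ∂ν ∂ν := by
    rw [lintegral_lintegral_swap (Measurable.lintegral_prod_right' k2).aemeasurable]
    apply lintegral_congr
    intro x
    have k3 : Measurable fun p : Cf X × X => ENNReal.ofReal (u x * u p.2) *
        ‖F (x ::ₘ ms p.1) - F (p.2 ::ₘ ms p.1)‖ₑ ^ 2 :=
      k2.comp ((measurable_fst.prodMk measurable_const).prodMk measurable_snd)
    rw [lintegral_lintegral_swap k3.aemeasurable]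
    apply lintegral_congr
    intro y
    unfold dE nE
    rw [lintegral_const_mul]
    exact (((hm1.comp measurable_prodMk_right).sub
      (hm1.comp measurable_prodMk_right)).enorm.pow_const 2)
  rw [l1, ← l2, ← lintegral_const_mul _ (Measurable.lintegral_prod_right' k1)]
  unfold nE
  rw [← lintegral_const_mul _
    (Measurable.lintegral_prod_right' (Measurable.lintegral_prod_right' k2)),
    ← lintegral_add_left (hag'.meas.enorm.pow_const 2)]
  apply lintegral_congr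
  intro γ
  exact expand ν u hu hu0 hub (fun x => F (x ::ₘ ms γ)) (hm1' γ) (fun x => hb x (ms γ))

lemma sumform (hE : S_EBC) (hL : S_LAM) {ι : Type} [Fintype ι] (u : ι → X → ℝ)
    (hu : ∀ i, Measurable (u i)) (hu0 : ∀ i x, 0 ≤ u i x) (hu1 : ∀ i x, u i x ≤ 1)
    (hs : ∀ x, ∑ i, u i x = 1) {M : ℝ} (hM : ∀ i, ∫ x, u i x ∂ν = M)
    (F : Multiset X → ℂ) (hF : EB F) :
    ENNReal.ofReal M * nuE ν F = ∑ i, nE ν (ag ν (u i) F) +
      2⁻¹ * ∫⁻ x, ∫⁻ y, (∑ i, ENNReal.ofReal (u i x * u i y)) * dE ν F x y ∂ν ∂ν := by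
  obtain ⟨-, -, -, -, -, -, -, -, m8, m9, -⟩ := hE X ν F F hF hF
  have hone : ∀ i, ENNReal.ofReal M * ∫⁻ x, ENNReal.ofReal (u i x) * nE ν (an x F) ∂ν =
      nE ν (ag ν (u i) F) +
        2⁻¹ * ∫⁻ x, ∫⁻ y, ENNReal.ofReal (u i x * u i y) * dE ν F x y ∂ν ∂ν := by
    intro i
    rw [← one ν hE hL (u i) (hu i) (hu0 i) (hu1 i) F hF, hM i]
  have km1 : ∀ i ∈ (Finset.univ : Finset ι),
      Measurable fun x => ENNReal.ofReal (u i x) * nE ν (an x F) :=
    fun i _ => ((hu i).ennreal_ofReal).mul m8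
  have hsum : ENNReal.ofReal M * nuE ν F =
      ∑ i, ENNReal.ofReal M * ∫⁻ x, ENNReal.ofReal (u i x) * nE ν (an x F) ∂ν := by
    rw [← Finset.mul_sum, ← lintegral_finsetSum _ km1]
    congr 1
    apply lintegral_congr
    intro x
    rw [← Finset.sum_mul, ← ENNReal.ofReal_sum_of_nonneg (fun i _ => hu0 i x), hs x,
      ENNReal.ofReal_one, one_mul]
  have km : ∀ i, Measurable fun p : X × X =>
      ENNReal.ofReal (u i p.1 * u i p.2) * dE ν F p.1 p.2 := fun i =>
    ((((hu i).comp measurable_fst).mul ((hu i).comp measurable_snd)).ennreal_ofReal).mul m9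
  have hdsum : ∑ i, ∫⁻ x, ∫⁻ y, ENNReal.ofReal (u i x * u i y) * dE ν F x y ∂ν ∂ν =
      ∫⁻ x, ∫⁻ y, (∑ i, ENNReal.ofReal (u i x * u i y)) * dE ν F x y ∂ν ∂ν := by
    rw [← lintegral_finsetSum _ (fun i _ => Measurable.lintegral_prod_right' (km i))]
    apply lintegral_congr
    intro x
    have km2 : ∀ i ∈ (Finset.univ : Finset ι),
        Measurable fun y => ENNReal.ofReal (u i x * u i y) * dE ν F x y :=
      fun i _ => (km i).comp measurable_prodMk_left
    change ∑ i, ∫⁻ y, ENNReal.ofReal (u i x * u i y) * dE ν F x y ∂ν = _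
    rw [← lintegral_finsetSum _ km2]
    apply lintegral_congr
    intro y
    rw [Finset.sum_mul]
  rw [hsum, Finset.sum_congr rfl (fun i _ => hone i), Finset.sum_add_distrib, ← Finset.mul_sum,
    hdsum]

end

lemma cube_meas (n : ℕ) (r : ℝ) : MeasurableSet (cube n r) := by
  have : cube n r = ⋂ c : Fin n, {z : Fin n → ℝ | |z c| ≤ r} := by
    ext z; simp [cube]
  rw [this]
  exact MeasurableSet.iInter fun c => measurableSet_le (by fun_prop) measurable_const

theorem coh (_ : S_TF) (hH : S_HAT) (hG : S_GK) (hP : S_PO2) : S_COH := by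
  have hMS := Pool.Agent.W975.CB.proof_ms
  have hL := Pool.Agent.W366.CB.proof_lam hMS
  have hE := Pool.Agent.W417.CB.proof_ebc hMS hL
  intro n L ℓ m C hL0 q μ K hK hC hPO hq hLq hℓ F hF
  have hq' : (2 : ℝ) ≤ q := by exact_mod_cast hq
  have hℓ0 : 0 < ℓ := by linarith
  obtain ⟨a1, a2, a3, a4, -⟩ := hH n L ℓ q (by omega) hLq
  obtain ⟨-, -, -, -, -, -, -, -, m8, m9, -⟩ := hE (Tor n L) volume F F hF hF
  have hsf := sumform (volume : Measure (Tor n L)) hE hL
    (fun i : Fin n → Fin q => hat n L ℓ (fun c => (i c : ℕ))) (fun i => a1 _)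
    (fun i x => (a2 _ x).1) (fun i x => (a2 _ x).2) a3 (fun i => a4 _) F hF
  classical
  have hgk := hG n L ℓ q (fun z => if z ∈ cube n (2 * ℓ) then 1 else 0) 1 (by omega) hLq
    (Measurable.ite (cube_meas n (2 * ℓ)) measurable_const measurable_const)
    zero_le_one (by
      intro z hz
      rw [if_pos (show z ∈ cube n (2 * ℓ) from hz), ENNReal.ofReal_one])
    (fun x y => dE volume F x y) m9
  rw [ENNReal.ofReal_one, one_mul] at hgk
  have hind : ∫⁻ z : Fin n → ℝ, (if z ∈ cube n (2 * ℓ) then (1 : ℝ≥0∞) else 0) *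
      ∫⁻ x, dE volume F (x + pr L z) x =
      ∫⁻ z in cube n (2 * ℓ), ∫⁻ x, dE volume F (x + pr L z) x := by
    rw [← lintegral_indicator (cube_meas n (2 * ℓ))]
    apply lintegral_congr
    intro z
    by_cases hz : z ∈ cube n (2 * ℓ)
    · rw [if_pos hz, one_mul, Set.indicator_of_mem hz]
    · rw [if_neg hz, zero_mul, Set.indicator_of_notMem hz]
  rw [hind] at hgk
  have hpo := hP n L m C μ K hK hC hPO F hF (2 * ℓ) hℓ (by nlinarith)
  have hconst : C * (2 * ℓ) ^ ((n : ℝ) + m) = ℓ ^ n * (C * 2 ^ ((n : ℝ) + m) * ℓ ^ m) := by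
    rw [Real.mul_rpow (by norm_num) hℓ0.le, Real.rpow_add hℓ0, Real.rpow_natCast]
    ring
  rw [hconst] at hpo
  rw [hsf]
  refine add_le_add le_rfl ?_
  refine le_trans ?_ (hgk.trans hpo)
  calc _ ≤ 1 * _ := mul_le_mul_left (ENNReal.inv_le_one.2 (by norm_num)) _
    _ = _ := one_mul _

end Pool.Agent.W374.CB2.Coh
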