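import Pool.Agent.W417.CB.Ebc
import Pool.Agent.W366.CB.Lam
import Pool.Agent.W975.CB.Ms
import Pool.Agent.W337.CB.Mecke
import Pool.Agent.W761.CB.Stms

/-!
# CB-LOWN: from Fock space to wave functions
-/

set_option autoImplicit false

open MeasureTheory
open scoped ENNReal

namespace Pool.Agent.W374.CB2.Lown

open Pool.Agent.W761.CB
open Pool.Agent.W337.CB (ms_above sum_ms meas_mk fact_id)

/-- wave function of a sector -/
def Ps {X : Type} (F : Multiset X → ℂ) (N : ℕ) (x : Fin N → X) : ℂ := F (ms ⟨N, x⟩)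

lemma upd {X : Type} {N : ℕ} (z : Fin (N + 1) → X) (i : Fin (N + 1)) (y : X) :
    ms (⟨N + 1, Function.update z i y⟩ : Cf X) =
      y ::ₘ ms (⟨N, fun j => z (i.succAbove j)⟩ : Cf X) := by
  rw [ms_above (Function.update z i y) i, Function.update_self]
  congr 3
  funext j
  rw [Function.update_of_ne (Fin.succAbove_ne i j)]

lemma ms_perm {X : Type} {N : ℕ} (z : Fin N → X) (π : Equiv.Perm (Fin N)) :
    ms (⟨N, z ∘ π⟩ : Cf X) = ms (⟨N, z⟩ : Cf X) := by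
  unfold ms
  exact Quotient.sound (Equiv.Perm.ofFn_comp_perm π z)

section
variable {X : Type} [MeasurableSpace X] (ν : Measure X) [IsFiniteMeasure ν]

lemma rem (hL : S_LAM) (h : X → Multiset X → ℝ≥0∞)
    (hh : Measurable fun p : X × Cf X => h p.1 (ms p.2)) :
    ∫⁻ x, ∫⁻ γ, h x (ms γ) ∂(lam ν) ∂ν =
      ∑' N : ℕ, ((N + 1).factorial : ℝ≥0∞)⁻¹ * ∑ i : Fin (N + 1), ∫⁻ z : Fin (N + 1) → X,
        h (z i) (ms ⟨N, fun j => z (i.succAbove j)⟩) ∂(Measure.pi fun _ => ν) := by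
  obtain ⟨sec, -⟩ := hL X ν
  have mHN : ∀ N, Measurable (fun p : X × (Fin N → X) => h p.1 (ms ⟨N, p.2⟩)) := by
    intro N
    exact hh.comp (measurable_fst.prodMk ((meas_mk N).comp measurable_snd))
  have hterm : ∀ (N : ℕ) (i : Fin (N + 1)), ∫⁻ z : Fin (N + 1) → X,
      h (z i) (ms ⟨N, fun j => z (i.succAbove j)⟩) ∂(Measure.pi fun _ => ν) =
      ∫⁻ a, ∫⁻ y : Fin N → X, h a (ms ⟨N, y⟩) ∂(Measure.pi fun _ => ν) ∂ν := by
    intro N i
    have e := measurePreserving_piFinSuccAbove (fun _ : Fin (N + 1) => ν) i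
    have h1 := e.lintegral_comp (mHN N)
    rw [← lintegral_prod (fun p : X × (Fin N → X) => h p.1 (ms ⟨N, p.2⟩))
      (mHN N).aemeasurable]
    rw [← h1]
    rfl
  have hR : ∀ x : X, ∫⁻ γ, h x (ms γ) ∂(lam ν) = ∑' N : ℕ, (N.factorial : ℝ≥0∞)⁻¹ *
      ∫⁻ y : Fin N → X, h x (ms ⟨N, y⟩) ∂(Measure.pi fun _ => ν) := by
    intro x
    exact sec (fun γ => h x (ms γ)) (hh.comp (measurable_const.prodMk measurable_id))
  simp only [hR]
  rw [lintegral_tsum]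
  · refine tsum_congr fun N => ?_
    rw [Finset.sum_congr rfl fun i _ => hterm N i, Finset.sum_const, Finset.card_univ,
        Fintype.card_fin, nsmul_eq_mul, ← mul_assoc, fact_id, lintegral_const_mul]
    exact (mHN N).lintegral_prod_right'
  · intro N
    exact ((mHN N).lintegral_prod_right'.const_mul _).aemeasurable

lemma pairs (hM : S_MS) (hL : S_LAM) (hE : S_EBC) (hMe : S_MECKE) (g : X → X → ℝ≥0∞)
    (hg : Measurable fun p : X × X => g p.1 p.2) {F : Multiset X → ℂ} (hF : EB F) :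
    ∫⁻ x, ∫⁻ y, g x y * nE ν (an y (an x F)) ∂ν ∂ν =
      ∑' N : ℕ, ((N + 1).factorial : ℝ≥0∞)⁻¹ * ∫⁻ z : Fin (N + 1) → X,
        (∑ i : Fin (N + 1), ∑ j : Fin N, g (z i) (z (i.succAbove j))) *
          ‖Ps F (N + 1) z‖ₑ ^ 2 ∂(Measure.pi fun _ => ν) := by
  obtain ⟨-, -, -, -, m1, m2, -⟩ := hE X ν F F hF hF
  obtain ⟨-, -, -, -, mS, -⟩ := hM X
  have hPm : ∀ N, Measurable (Ps F N) := fun N => hF.meas.comp (meas_mk N)
  -- Mecke
  have h1 : ∀ x : X, ∫⁻ y, g x y * nE ν (an y (an x F)) ∂ν =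
      ∫⁻ γ, ((ms γ).map fun y => g x y * ‖F (x ::ₘ ms γ)‖ₑ ^ 2).sum ∂(lam ν) := by
    intro x
    have hm : Measurable fun p : X × Cf X => g x p.1 * ‖F (x ::ₘ ms p.2)‖ₑ ^ 2 := by
      have a1 : Measurable fun p : X × Cf X => g x p.1 :=
        hg.comp (measurable_const.prodMk measurable_fst)
      have a2 : Measurable fun p : X × Cf X => F (x ::ₘ ms p.2) :=
        m1.comp (measurable_const.prodMk measurable_snd)
      exact a1.mul (a2.enorm.pow_const 2)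
    rw [hMe X ν (fun y S => g x y * ‖F (x ::ₘ S)‖ₑ ^ 2) hm]
    apply lintegral_congr
    intro y
    have a3 : Measurable fun γ : Cf X => ‖F (x ::ₘ y ::ₘ ms γ)‖ₑ ^ 2 := by
      have a4 : Measurable fun γ : Cf X => F (x ::ₘ y ::ₘ ms γ) :=
        m2.comp (g := fun p : (X × X) × Cf X => F (p.1.1 ::ₘ p.1.2 ::ₘ ms p.2))
          (f := fun γ => ((x, y), γ)) (measurable_const.prodMk measurable_id)
      exact a4.enorm.pow_const 2
    exact (lintegral_const_mul (g x y) a3).symm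
  rw [lintegral_congr h1]
  have hm2 : Measurable fun p : X × Cf X =>
      ((ms p.2).map fun y => g p.1 y * ‖F (p.1 ::ₘ ms p.2)‖ₑ ^ 2).sum := by
    have b1 : Measurable fun q : (X × Cf X) × X =>
        g q.1.1 q.2 * ‖F (q.1.1 ::ₘ ms q.1.2)‖ₑ ^ 2 := by
      have a1 : Measurable fun q : (X × Cf X) × X => g q.1.1 q.2 :=
        hg.comp ((measurable_fst.comp measurable_fst).prodMk measurable_snd)
      exact a1.mul ((m1.comp measurable_fst).enorm.pow_const 2)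
    have b2 := mS (X × Cf X) (fun p y => g p.1 y * ‖F (p.1 ::ₘ ms p.2)‖ₑ ^ 2) b1
    exact b2.comp (measurable_id.prodMk measurable_snd)
  rw [rem ν hL (fun x S => (S.map fun y => g x y * ‖F (x ::ₘ S)‖ₑ ^ 2).sum) hm2]
  apply tsum_congr
  intro N
  congr 1
  have h2 : ∀ (i : Fin (N + 1)) (z : Fin (N + 1) → X),
      ((ms (⟨N, fun j => z (i.succAbove j)⟩ : Cf X)).map fun y => g (z i) y *
        ‖F (z i ::ₘ ms ⟨N, fun j => z (i.succAbove j)⟩)‖ₑ ^ 2).sum =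
      (∑ j : Fin N, g (z i) (z (i.succAbove j))) * ‖Ps F (N + 1) z‖ₑ ^ 2 := by
    intro i z
    rw [sum_ms, Finset.sum_mul]
    unfold Ps
    rw [← ms_above z i]
  have hms : ∀ i : Fin (N + 1), Measurable fun z : Fin (N + 1) → X =>
      (∑ j : Fin N, g (z i) (z (i.succAbove j))) * ‖Ps F (N + 1) z‖ₑ ^ 2 := fun i =>
    (Finset.measurable_fun_sum _ fun j _ =>
      hg.comp ((measurable_pi_apply i).prodMk (measurable_pi_apply (i.succAbove j)))).mul
      ((hPm (N + 1)).enorm.pow_const 2)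
  rw [Finset.sum_congr rfl fun i _ => lintegral_congr (h2 i),
    ← lintegral_finsetSum _ (fun i _ => hms i)]
  apply lintegral_congr
  intro z
  rw [Finset.sum_mul]

end

/-- double sums -/
lemma dsum {N : ℕ} (v : Fin (N + 1) → Fin (N + 1) → ℝ≥0∞) (hv : ∀ i j, v i j = v j i) :
    ∑ i : Fin (N + 1), ∑ j : Fin N, v i (i.succAbove j) =
      2 * ∑ i : Fin (N + 1), ∑ j ∈ Finset.univ.filter (fun j => i < j), v i j := by
  have h1 : ∀ i : Fin (N + 1), ∑ j : Fin N, v i (i.succAbove j) =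
      ∑ j ∈ Finset.univ.filter (fun j => i < j), v i j +
        ∑ j ∈ Finset.univ.filter (fun j => j < i), v i j := by
    intro i
    have e1 : ∑ j : Fin N, v i (i.succAbove j) = ∑ j ∈ Finset.univ.filter (fun j => j ≠ i), v i j := by
      rw [← Finset.sum_image (f := fun j => v i j) (s := Finset.univ) (g := i.succAbove)
        (fun a _ b _ hab => Fin.succAbove_right_injective hab)]
      apply Finset.sum_congr _ fun _ _ => rfl
      rw [Fin.image_succAbove_univ]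
      ext j
      simp
    rw [e1, ← Finset.sum_union]
    · apply Finset.sum_congr _ fun _ _ => rfl
      ext j
      simp only [Finset.mem_filter, Finset.mem_univ, true_and, Finset.mem_union]
      constructor
      · intro h
        rcases lt_or_gt_of_ne h with h | h
        · right; exact h
        · left; exact h
      · rintro (h | h)
        · exact h.ne'
        · exact h.ne
    · rw [Finset.disjoint_filter]
      intro j _ h h'
      exact absurd h (not_lt.2 h'.le)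
  rw [Finset.sum_congr rfl fun i _ => h1 i, Finset.sum_add_distrib, two_mul]
  congr 1
  simp only [Finset.sum_filter]
  rw [Finset.sum_comm]
  apply Finset.sum_congr rfl
  intro i _
  apply Finset.sum_congr rfl
  intro j _
  split_ifs
  · exact hv _ _
  · rfl

section
variable {n : ℕ} {L : ℝ} [Fact (0 < L)]

/-- scaling -/
lemma enN_smul {N : ℕ} (μ : ℝ≥0∞) (K : (Fin n → ℝ) → ℝ≥0∞) (v : ℝ → ℝ≥0∞)
    (Ψ : (Fin N → Tor n L) → ℂ) (c : ℂ) :
    enN μ K v (fun x => c * Ψ x) = ‖c‖ₑ ^ 2 * enN μ K v Ψ := by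
  have h1 : ∀ a b : ℂ, ‖c * a - c * b‖ₑ ^ 2 = ‖c‖ₑ ^ 2 * ‖a - b‖ₑ ^ 2 := by
    intro a b
    rw [← mul_sub, enorm_mul, mul_pow]
  have hc : ‖c‖ₑ ^ 2 ≠ ⊤ := by finiteness
  have h2 : ∀ g : (Fin N → Tor n L) → ℝ≥0∞, ∫⁻ x, ‖c‖ₑ ^ 2 * g x = ‖c‖ₑ ^ 2 * ∫⁻ x, g x :=
    fun g => lintegral_const_mul' _ _ hc
  unfold enN
  simp only [h1, h2, enorm_mul, mul_pow, mul_left_comm _ (‖c‖ₑ ^ 2)]
  rw [mul_add, mul_add]
  congr 1
  · congr 1
    · rw [mul_left_comm]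
      congr 1
      rw [Finset.mul_sum]
      apply Finset.sum_congr rfl
      intro i _
      rw [Finset.mul_sum]
      apply Finset.sum_congr rfl
      intro c' _
      rw [ENNReal.mul_iSup]
    · rw [mul_left_comm]
      congr 1
      rw [Finset.mul_sum]
      apply Finset.sum_congr rfl
      intro i _
      rw [lintegral_const_mul' _ _ hc]

/-- the lower bound for vectors which are not normalized -/
lemma unnorm {N : ℕ} (μ : ℝ≥0∞) (K : (Fin n → ℝ) → ℝ≥0∞) (v : ℝ → ℝ≥0∞) (δ e : ℝ)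
    (hyp : ∀ Ψ : (Fin N → Tor n L) → ℂ, IsWf Ψ →
      ENNReal.ofReal (δ * N) ≤ enN μ K v Ψ + ENNReal.ofReal e)
    (Ψ : (Fin N → Tor n L) → ℂ) (hm : Measurable Ψ) (hb : ∃ C : ℝ, ∀ x, ‖Ψ x‖ ≤ C)
    (hs : ∀ (π : Equiv.Perm (Fin N)) (x : Fin N → Tor n L), Ψ (x ∘ π) = Ψ x) :
    ENNReal.ofReal (δ * N) * ∫⁻ x, ‖Ψ x‖ₑ ^ 2 ≤
      enN μ K v Ψ + ENNReal.ofReal e * ∫⁻ x, ‖Ψ x‖ₑ ^ 2 := by
  obtain ⟨C, hC⟩ := hb
  set p : ℝ≥0∞ := ∫⁻ x, ‖Ψ x‖ₑ ^ 2 with hp
  by_cases h0 : p = 0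
  · rw [h0, mul_zero]
    exact zero_le
  have htop : p ≠ ⊤ := by
    have h1 : p ≤ ∫⁻ _x : Fin N → Tor n L, ENNReal.ofReal C ^ 2 := by
      apply lintegral_mono
      intro x
      have h2 : ‖Ψ x‖ₑ ≤ ENNReal.ofReal C := by
        rw [← ofReal_norm]
        exact ENNReal.ofReal_le_ofReal (hC x)
      exact pow_le_pow_left' h2 2
    refine ne_top_of_le_ne_top ?_ h1
    rw [lintegral_const]
    finiteness
  have hpr : 0 < p.toReal := ENNReal.toReal_pos h0 htop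
  set c : ℂ := (((√p.toReal)⁻¹ : ℝ) : ℂ) with hc
  have hc2 : ‖c‖ₑ ^ 2 = p⁻¹ := by
    rw [hc, ← ofReal_norm, Complex.norm_real, Real.norm_eq_abs, abs_of_nonneg (by positivity),
      ← ENNReal.ofReal_pow (by positivity), inv_pow, Real.sq_sqrt hpr.le,
      ENNReal.ofReal_inv_of_pos hpr, ENNReal.ofReal_toReal htop]
  have hw : IsWf (fun x => c * Ψ x) := by
    refine ⟨measurable_const.mul hm, ⟨‖c‖ * C, fun x => ?_⟩, fun π x => ?_, ?_⟩
    · rw [norm_mul]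
      exact mul_le_mul_of_nonneg_left (hC x) (norm_nonneg _)
    · rw [hs]
    · have : ∀ x, ‖c * Ψ x‖ₑ ^ 2 = ‖c‖ₑ ^ 2 * ‖Ψ x‖ₑ ^ 2 := fun x => by
        rw [enorm_mul, mul_pow]
      simp only [this]
      rw [lintegral_const_mul' _ _ (by finiteness), hc2]
      exact ENNReal.inv_mul_cancel h0 htop
  have h1 := hyp _ hw
  rw [enN_smul, hc2] at h1
  calc ENNReal.ofReal (δ * N) * p ≤ (p⁻¹ * enN μ K v Ψ + ENNReal.ofReal e) * p := by gcongr
    _ = enN μ K v Ψ + ENNReal.ofReal e * p := by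
        rw [add_mul, mul_right_comm, ENNReal.inv_mul_cancel h0 htop, one_mul]

/-- the difference quotients of a sector -/
noncomputable def DD1 (F : Multiset (Tor n L) → ℂ) (N : ℕ) (i : Fin N) (h : Tor n L) : ℝ≥0∞ :=
  ∫⁻ x : Fin N → Tor n L, ‖Ps F N (Function.update x i (x i + h)) - Ps F N x‖ₑ ^ 2

omit [Fact (0 < L)] in
lemma Ps_meas {F : Multiset (Tor n L) → ℂ} (hF : EB F) (N : ℕ) : Measurable (Ps F N) :=
  hF.meas.comp (meas_mk N)

lemma dEsum (hL : S_LAM) (hE : S_EBC) {F : Multiset (Tor n L) → ℂ} (hF : EB F) (h : Tor n L) :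
    ∫⁻ x, dE volume F (x + h) x =
      ∑' N : ℕ, ((N + 1).factorial : ℝ≥0∞)⁻¹ * ∑ i : Fin (N + 1), DD1 F (N + 1) i h := by
  obtain ⟨-, -, -, -, m1, -⟩ := hE (Tor n L) volume F F hF hF
  have hm : Measurable fun p : Tor n L × Cf (Tor n L) =>
      ‖F ((p.1 + h) ::ₘ ms p.2) - F (p.1 ::ₘ ms p.2)‖ₑ ^ 2 := by
    have a1 : Measurable fun p : Tor n L × Cf (Tor n L) => F ((p.1 + h) ::ₘ ms p.2) :=
      m1.comp ((measurable_fst.add_const h).prodMk measurable_snd)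
    exact (a1.sub m1).enorm.pow_const 2
  have := rem (volume : Measure (Tor n L)) hL
    (fun x S => ‖F ((x + h) ::ₘ S) - F (x ::ₘ S)‖ₑ ^ 2) hm
  refine this.trans ?_
  apply tsum_congr
  intro N
  congr 1
  apply Finset.sum_congr rfl
  intro i _
  apply lintegral_congr
  intro z
  unfold Ps
  rw [upd, ms_above z i]

lemma trl {N : ℕ} (g : (Fin N → Tor n L) → ℝ≥0∞) (i : Fin N) (h : Tor n L) :
    ∫⁻ x, g (Function.update x i (x i + h)) = ∫⁻ x, g x := by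
  have h1 : ∀ x : Fin N → Tor n L, Function.update x i (x i + h) = Pi.single i h + x := by
    intro x
    funext j
    by_cases hj : j = i
    · subst hj
      rw [Function.update_self, Pi.add_apply, Pi.single_eq_same, add_comm]
    · rw [Function.update_of_ne hj, Pi.add_apply, Pi.single_eq_of_ne hj, zero_add]
  simp only [h1]
  exact lintegral_add_left_eq_self g (Pi.single i h)

lemma ensq2 (a b : ℂ) : ‖a + b‖ₑ ^ 2 ≤ 2 * ‖a‖ₑ ^ 2 + 2 * ‖b‖ₑ ^ 2 := by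
  have h1 : ∀ w : ℂ, ‖w‖ₑ ^ 2 = ENNReal.ofReal (‖w‖ ^ 2) := by
    intro w
    rw [← ofReal_norm, ENNReal.ofReal_pow (norm_nonneg _)]
  have h2 : (2 : ℝ≥0∞) = ENNReal.ofReal 2 := by norm_num
  rw [h1, h1, h1, h2, ← ENNReal.ofReal_mul (by norm_num), ← ENNReal.ofReal_mul (by norm_num),
    ← ENNReal.ofReal_add (by positivity) (by positivity)]
  apply ENNReal.ofReal_le_ofReal
  have h3 := norm_add_le a b
  have h4 := norm_nonneg (a + b)
  nlinarith [sq_nonneg (‖a‖ - ‖b‖)]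

lemma dbl {F : Multiset (Tor n L) → ℂ} (hF : EB F) (N : ℕ) (i : Fin N) (h : Tor n L) :
    DD1 F N i (h + h) ≤ 4 * DD1 F N i h := by
  set g : (Fin N → Tor n L) → ℝ≥0∞ := fun x =>
    ‖Ps F N (Function.update x i (x i + h)) - Ps F N x‖ₑ ^ 2 with hg
  have hgm : Measurable g := by
    have a1 : Measurable fun x : Fin N → Tor n L => Function.update x i (x i + h) := by
      rw [measurable_pi_iff]
      intro j
      by_cases hj : j = i
      · subst hj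
        simp only [Function.update_self]
        exact Measurable.add_const (f := fun x : Fin N → Tor n L => x j) (measurable_pi_apply j) h
      · simp only [Function.update_of_ne hj]
        exact measurable_pi_apply j
    exact (((Ps_meas hF N).comp a1).sub (Ps_meas hF N)).enorm.pow_const 2
  have h1 : DD1 F N i (h + h) ≤
      ∫⁻ x, (2 * g (Function.update x i (x i + h)) + 2 * g x) := by
    apply lintegral_mono
    intro x
    refine le_trans ?_ (ensq2 _ _)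
    apply le_of_eq
    rw [Function.update_idem, Function.update_self, add_assoc, sub_add_sub_cancel]
  refine h1.trans ?_
  rw [lintegral_add_right _ (hgm.const_mul 2), lintegral_const_mul _ hgm,
    lintegral_const_mul' _ _ (by norm_num), trl g i h]
  apply le_of_eq
  change 2 * DD1 F N i h + 2 * DD1 F N i h = 4 * DD1 F N i h
  rw [← add_mul]
  norm_num

lemma kp (hT : S_TF) (hL : S_LAM) (hE : S_EBC) {F : Multiset (Tor n L) → ℂ} (hF : EB F) :
    ∑' N : ℕ, ((N + 1).factorial : ℝ≥0∞)⁻¹ * (∑ i : Fin (N + 1), ∑ c : Fin n, ⨆ k : ℕ,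
      4 ^ k * DD1 F (N + 1) i (ec L c ((2 : ℝ)⁻¹ ^ k))) ≤ Kp F := by
  have hpr := (hT n L).2.2.1
  have hec : ∀ (c : Fin n) (k : ℕ), ec L c ((2 : ℝ)⁻¹ ^ k) =
      ec L c ((2 : ℝ)⁻¹ ^ (k + 1)) + ec L c ((2 : ℝ)⁻¹ ^ (k + 1)) := by
    intro c k
    unfold ec
    rw [← hpr, ← Pi.single_add]
    congr 2
    rw [pow_succ]
    ring
  have hmono : ∀ (N : ℕ) (i : Fin N) (c : Fin n),
      Monotone fun k : ℕ => 4 ^ k * DD1 F N i (ec L c ((2 : ℝ)⁻¹ ^ k)) := by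
    intro N i c
    apply monotone_nat_of_le_succ
    intro k
    calc 4 ^ k * DD1 F N i (ec L c ((2 : ℝ)⁻¹ ^ k))
        ≤ 4 ^ k * (4 * DD1 F N i (ec L c ((2 : ℝ)⁻¹ ^ (k + 1)))) := by
          rw [hec c k]
          exact mul_le_mul_right (dbl hF N i _) _
      _ = 4 ^ (k + 1) * DD1 F N i (ec L c ((2 : ℝ)⁻¹ ^ (k + 1))) := by
          rw [pow_succ (4 : ℝ≥0∞) k, mul_assoc]
  have h1 : ∀ N : ℕ, ((N + 1).factorial : ℝ≥0∞)⁻¹ * (∑ i : Fin (N + 1), ∑ c : Fin n, ⨆ k : ℕ,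
      4 ^ k * DD1 F (N + 1) i (ec L c ((2 : ℝ)⁻¹ ^ k))) =
      ∑ c : Fin n, ⨆ k : ℕ, 4 ^ k * (((N + 1).factorial : ℝ≥0∞)⁻¹ * ∑ i : Fin (N + 1),
        DD1 F (N + 1) i (ec L c ((2 : ℝ)⁻¹ ^ k))) := by
    intro N
    rw [Finset.sum_comm, Finset.mul_sum]
    apply Finset.sum_congr rfl
    intro c _
    rw [ENNReal.finsetSum_iSup_of_monotone (fun i => hmono (N + 1) i c), ENNReal.mul_iSup]
    apply iSup_congr
    intro k
    rw [← Finset.mul_sum, mul_left_comm]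
  simp only [h1]
  rw [Summable.tsum_finsetSum (fun _ _ => ENNReal.summable)]
  unfold Kp
  apply Finset.sum_le_sum
  intro c _
  rw [ENNReal.tsum_eq_iSup_sum]
  apply iSup_le
  intro s
  rw [ENNReal.finsetSum_iSup_of_monotone]
  · apply iSup_mono
    intro k
    rw [dEsum hL hE hF, ← Finset.mul_sum]
    gcongr
    exact ENNReal.sum_le_tsum s
  · intro N
    apply monotone_nat_of_le_succ
    intro k
    calc 4 ^ k * (((N + 1).factorial : ℝ≥0∞)⁻¹ * ∑ i : Fin (N + 1),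
          DD1 F (N + 1) i (ec L c ((2 : ℝ)⁻¹ ^ k)))
        = ((N + 1).factorial : ℝ≥0∞)⁻¹ * ∑ i : Fin (N + 1),
          4 ^ k * DD1 F (N + 1) i (ec L c ((2 : ℝ)⁻¹ ^ k)) := by
          rw [mul_left_comm, Finset.mul_sum]
      _ ≤ ((N + 1).factorial : ℝ≥0∞)⁻¹ * ∑ i : Fin (N + 1),
          4 ^ (k + 1) * DD1 F (N + 1) i (ec L c ((2 : ℝ)⁻¹ ^ (k + 1))) := by
          apply mul_le_mul_right
          exact Finset.sum_le_sum fun i _ => hmono (N + 1) i c (Nat.le_succ k)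
      _ = 4 ^ (k + 1) * (((N + 1).factorial : ℝ≥0∞)⁻¹ * ∑ i : Fin (N + 1),
          DD1 F (N + 1) i (ec L c ((2 : ℝ)⁻¹ ^ (k + 1)))) := by
          rw [mul_left_comm (4 ^ (k + 1)), Finset.mul_sum (f := fun i => DD1 F (N + 1) i _)]

lemma DD1_meas (hT : S_TF) {F : Multiset (Tor n L) → ℂ} (hF : EB F) (N : ℕ) (i : Fin N) :
    Measurable fun z : Fin n → ℝ => DD1 F N i (pr L z) := by
  have hpr := (hT n L).2.1
  unfold DD1
  apply Measurable.lintegral_prod_right'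
    (f := fun p : (Fin n → ℝ) × (Fin N → Tor n L) =>
      ‖Ps F N (Function.update p.2 i (p.2 i + pr L p.1)) - Ps F N p.2‖ₑ ^ 2)
  have a1 : Measurable fun p : (Fin n → ℝ) × (Fin N → Tor n L) =>
      Function.update p.2 i (p.2 i + pr L p.1) := by
    rw [measurable_pi_iff]
    intro j
    have a0 : ∀ j, Measurable fun p : (Fin n → ℝ) × (Fin N → Tor n L) => p.2 j := fun j =>
      (measurable_pi_apply j).comp measurable_snd
    by_cases hj : j = i
    · subst hj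
      simp only [Function.update_self]
      exact (a0 j).add (hpr.comp measurable_fst)
    · simp only [Function.update_of_ne hj]
      exact a0 j
  exact (((Ps_meas hF N).comp a1).sub ((Ps_meas hF N).comp measurable_snd)).enorm.pow_const 2

lemma hp (hT : S_TF) (hL : S_LAM) (hE : S_EBC) {F : Multiset (Tor n L) → ℂ} (hF : EB F)
    (K : (Fin n → ℝ) → ℝ≥0∞) (hK : Measurable K) :
    Hp K F = ∑' N : ℕ, ((N + 1).factorial : ℝ≥0∞)⁻¹ * (2⁻¹ * (∑ i : Fin (N + 1),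
      ∫⁻ z, K z * DD1 F (N + 1) i (pr L z))) := by
  have hD : ∀ (N : ℕ) (i : Fin N), Measurable fun z => K z * DD1 F N i (pr L z) := fun N i =>
    hK.mul (DD1_meas hT hF N i)
  unfold Hp
  have h1 : ∀ z, K z * ∫⁻ x, dE volume F (x + pr L z) x =
      ∑' N : ℕ, ((N + 1).factorial : ℝ≥0∞)⁻¹ * ∑ i : Fin (N + 1),
        K z * DD1 F (N + 1) i (pr L z) := by
    intro z
    rw [dEsum hL hE hF, ← ENNReal.tsum_mul_left]
    apply tsum_congr
    intro N
    rw [mul_left_comm, Finset.mul_sum]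
  simp only [h1]
  rw [lintegral_tsum (fun N => ((Finset.measurable_fun_sum _ fun i _ =>
    hD (N + 1) i).const_mul _).aemeasurable), ← ENNReal.tsum_mul_left]
  apply tsum_congr
  intro N
  rw [lintegral_const_mul _ (Finset.measurable_fun_sum _ fun i _ => hD (N + 1) i),
    lintegral_finsetSum _ (fun i _ => hD (N + 1) i), mul_left_comm]

omit [Fact (0 < L)] in
lemma tdist_comm (x y : Tor n L) : tdist x y = tdist y x := by
  unfold tdist
  congr 1
  apply Finset.sum_congr rfl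
  intro c _
  rw [norm_sub_rev]

lemma vp (hT : S_TF) (hM : S_MS) (hL : S_LAM) (hE : S_EBC) (hMe : S_MECKE)
    {F : Multiset (Tor n L) → ℂ} (hF : EB F) (v : ℝ → ℝ≥0∞) (hv : Measurable v) :
    Vp v F = ∑' N : ℕ, ((N + 1).factorial : ℝ≥0∞)⁻¹ * (∫⁻ x : Fin (N + 1) → Tor n L,
      (∑ i : Fin (N + 1), ∑ j ∈ Finset.univ.filter fun j => i < j, v (tdist (x i) (x j))) *
      ‖Ps F (N + 1) x‖ₑ ^ 2) := by
  obtain ⟨-, -, -, -, -, -, -, hvt⟩ := hT n L
  have hvm := (hvt v hv).1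
  unfold Vp
  rw [pairs (volume : Measure (Tor n L)) hM hL hE hMe (fun x y => v (tdist x y)) hvm hF,
    ← ENNReal.tsum_mul_left]
  apply tsum_congr
  intro N
  rw [mul_left_comm]
  congr 1
  have h3 : ∀ z : Fin (N + 1) → Tor n L,
      (∑ i : Fin (N + 1), ∑ j : Fin N, v (tdist (z i) (z (i.succAbove j)))) *
        ‖Ps F (N + 1) z‖ₑ ^ 2 =
      2 * ((∑ i : Fin (N + 1), ∑ j ∈ Finset.univ.filter fun j => i < j,
        v (tdist (z i) (z j))) * ‖Ps F (N + 1) z‖ₑ ^ 2) := by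
    intro z
    rw [dsum (fun i j => v (tdist (z i) (z j)))
      (fun i j => by rw [tdist_comm]), mul_assoc]
  rw [lintegral_congr h3, lintegral_const_mul' _ _ (by norm_num), ← mul_assoc,
    ENNReal.inv_mul_cancel (by norm_num) (by norm_num), one_mul]
  rfl

lemma nu (hL : S_LAM) (hE : S_EBC) {F : Multiset (Tor n L) → ℂ} (hF : EB F) :
    nuE volume F = ∑' N : ℕ, ((N + 1).factorial : ℝ≥0∞)⁻¹ * (((N + 1 : ℕ) : ℝ≥0∞) *
      ∫⁻ x : Fin (N + 1) → Tor n L, ‖Ps F (N + 1) x‖ₑ ^ 2) := by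
  obtain ⟨-, -, -, -, m1, -⟩ := hE (Tor n L) volume F F hF hF
  have := rem (volume : Measure (Tor n L)) hL (fun x S => ‖F (x ::ₘ S)‖ₑ ^ 2)
    (m1.enorm.pow_const 2)
  refine this.trans ?_
  apply tsum_congr
  intro N
  congr 1
  have h1 : ∀ i : Fin (N + 1), ∫⁻ z : Fin (N + 1) → Tor n L,
      ‖F (z i ::ₘ ms ⟨N, fun j => z (i.succAbove j)⟩)‖ₑ ^ 2 ∂(Measure.pi fun _ => volume) =
      ∫⁻ x : Fin (N + 1) → Tor n L, ‖Ps F (N + 1) x‖ₑ ^ 2 := by
    intro i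
    apply lintegral_congr
    intro z
    unfold Ps
    rw [← ms_above z i]
  rw [Finset.sum_congr rfl fun i _ => h1 i, Finset.sum_const, Finset.card_univ,
    Fintype.card_fin, nsmul_eq_mul]

lemma ne (hL : S_LAM) {F : Multiset (Tor n L) → ℂ} (hF : EB F) :
    ∑' N : ℕ, ((N + 1).factorial : ℝ≥0∞)⁻¹ *
      (∫⁻ x : Fin (N + 1) → Tor n L, ‖Ps F (N + 1) x‖ₑ ^ 2) ≤ nE volume F := by
  obtain ⟨sec, -⟩ := hL (Tor n L) volume
  have h1 := sec (fun γ => ‖F (ms γ)‖ₑ ^ 2) (hF.meas.enorm.pow_const 2)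
  set f : ℕ → ℝ≥0∞ := fun N => (N.factorial : ℝ≥0∞)⁻¹ *
    ∫⁻ x : Fin N → Tor n L, ‖F (ms ⟨N, x⟩)‖ₑ ^ 2 ∂(Measure.pi fun _ => volume) with hf
  have h2 : nE volume F = ∑' N, f N := h1
  have h3 : ∑' N, f N = f 0 + ∑' N, f (N + 1) := tsum_eq_zero_add' ENNReal.summable
  rw [h2, h3]
  exact self_le_add_left (∑' N, f (N + 1)) (f 0)

end

theorem lown (hT : S_TF) : S_LOWN := by
  have hM := Pool.Agent.W975.CB.proof_ms
  have hL := Pool.Agent.W366.CB.proof_lam hM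
  have hE := Pool.Agent.W417.CB.proof_ebc hM hL
  have hMe := Pool.Agent.W337.CB.proof_mecke hM hL
  intro n L hL0 μ K v δ e hK hv hδ he hyp F hF
  obtain ⟨C, c, hC, hc, hb⟩ := hF.bdd
  have hsec : ∀ N : ℕ, ENNReal.ofReal (δ * N) * ∫⁻ x : Fin N → Tor n L, ‖Ps F N x‖ₑ ^ 2 ≤
      enN μ K v (Ps F N) + ENNReal.ofReal e * ∫⁻ x : Fin N → Tor n L, ‖Ps F N x‖ₑ ^ 2 := by
    intro N
    apply unnorm μ K v δ e (hyp N) (Ps F N) (Ps_meas hF N)
    · refine ⟨C * c ^ N, fun x => ?_⟩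
      have h1 := hb (ms ⟨N, x⟩)
      have h2 : Multiset.card (ms (⟨N, x⟩ : Cf (Tor n L))) = N := by
        unfold ms; simp
      rw [h2] at h1
      exact h1
    · intro π x
      unfold Ps
      rw [ms_perm]
  have hen : ∑' N : ℕ, ((N + 1).factorial : ℝ≥0∞)⁻¹ * enN μ K v (Ps F (N + 1)) ≤ en μ K v F := by
    unfold en ken
    rw [hp hT hL hE hF K hK, vp hT hM hL hE hMe hF v hv]
    have h1 : ∀ N : ℕ, ((N + 1).factorial : ℝ≥0∞)⁻¹ * enN μ K v (Ps F (N + 1)) =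
        μ * (((N + 1).factorial : ℝ≥0∞)⁻¹ * (∑ i : Fin (N + 1), ∑ c : Fin n, ⨆ k : ℕ,
          4 ^ k * DD1 F (N + 1) i (ec L c ((2 : ℝ)⁻¹ ^ k)))) +
        ((N + 1).factorial : ℝ≥0∞)⁻¹ * (2⁻¹ * (∑ i : Fin (N + 1),
          ∫⁻ z, K z * DD1 F (N + 1) i (pr L z))) +
        ((N + 1).factorial : ℝ≥0∞)⁻¹ * (∫⁻ x : Fin (N + 1) → Tor n L,
          (∑ i : Fin (N + 1), ∑ j ∈ Finset.univ.filter fun j => i < j,
            v (tdist (x i) (x j))) * ‖Ps F (N + 1) x‖ₑ ^ 2) := by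
      intro N
      unfold enN
      rw [mul_add, mul_add, mul_left_comm]
      rfl
    simp only [h1]
    rw [ENNReal.tsum_add, ENNReal.tsum_add, ENNReal.tsum_mul_left]
    gcongr
    exact kp hT hL hE hF
  rw [nu hL hE hF, ← ENNReal.tsum_mul_left]
  have h2 : ∀ N : ℕ, ENNReal.ofReal δ * (((N + 1).factorial : ℝ≥0∞)⁻¹ * (((N + 1 : ℕ) : ℝ≥0∞) *
      ∫⁻ x : Fin (N + 1) → Tor n L, ‖Ps F (N + 1) x‖ₑ ^ 2)) ≤
      ((N + 1).factorial : ℝ≥0∞)⁻¹ * enN μ K v (Ps F (N + 1)) +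
        ENNReal.ofReal e * (((N + 1).factorial : ℝ≥0∞)⁻¹ *
          ∫⁻ x : Fin (N + 1) → Tor n L, ‖Ps F (N + 1) x‖ₑ ^ 2) := by
    intro N
    have h3 := hsec (N + 1)
    rw [ENNReal.ofReal_mul hδ, ENNReal.ofReal_natCast] at h3
    calc _ = ((N + 1).factorial : ℝ≥0∞)⁻¹ * (ENNReal.ofReal δ * ((N + 1 : ℕ) : ℝ≥0∞) *
          ∫⁻ x : Fin (N + 1) → Tor n L, ‖Ps F (N + 1) x‖ₑ ^ 2) := by
          rw [mul_left_comm, mul_assoc]
      _ ≤ ((N + 1).factorial : ℝ≥0∞)⁻¹ * (enN μ K v (Ps F (N + 1)) +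
          ENNReal.ofReal e * ∫⁻ x : Fin (N + 1) → Tor n L, ‖Ps F (N + 1) x‖ₑ ^ 2) := by
          gcongr
      _ = _ := by
          rw [mul_add, mul_left_comm (ENNReal.ofReal e)]
  refine (ENNReal.tsum_le_tsum h2).trans ?_
  rw [ENNReal.tsum_add, ENNReal.tsum_mul_left]
  exact add_le_add hen (by gcongr; exact ne hL hF)

end Pool.Agent.W374.CB2.Lown
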